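import Pool.Agent.R38.QP.Stm

/-!
# Project QP, part QUA (helper113): the number of rational points of bounded height on the quadric
-/

set_option autoImplicit false

namespace Pool.Agent.R38.QP

open Matrix Finset
open Pool.Agent.H548.WM (ht bx Rep mem_bx card_bx_le le_ht)
open Pool.Agent.R38.NC (qf Prim)

theorem Qua_q4_le (A : Matrix (Fin 4) (Fin 4) ℤ) {a : Fin 4 → ℤ} {R : ℕ} (h : ht a ≤ R) :
    (q4 A a).natAbs ≤ (∑ i, ∑ j, (A i j).natAbs) * R ^ 2 := by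
  have h1 : ∀ i, (a i).natAbs ≤ R := fun i => (le_ht a i).trans h
  unfold q4
  simp only [dotProduct, Matrix.mulVec, Finset.mul_sum]
  refine (Int.natAbs_sum_le _ _).trans ?_
  rw [Finset.sum_mul]
  refine Finset.sum_le_sum fun i _ => ?_
  refine (Int.natAbs_sum_le _ _).trans ?_
  rw [Finset.sum_mul]
  refine Finset.sum_le_sum fun j _ => ?_
  rw [Int.natAbs_mul, Int.natAbs_mul]
  calc (a i).natAbs * ((A i j).natAbs * (a j).natAbs) ≤ R * ((A i j).natAbs * R) :=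
        Nat.mul_le_mul (h1 i) (Nat.mul_le_mul_left _ (h1 j))
    _ = (A i j).natAbs * R ^ 2 := by ring

theorem Qua_exR (X : ℕ) (hX : 1 ≤ X) : ∃ R : ℕ, 1 ≤ R ∧ 4 * X ≤ (R + 1) ^ 3 ∧ R ^ 3 ≤ 4 * X := by
  classical
  have hex : ∃ R : ℕ, 4 * X ≤ (R + 1) ^ 3 := ⟨4 * X, by
    have := Nat.le_self_pow (n := 3) (by norm_num) (4 * X + 1)
    omega⟩
  have hR := Nat.find_spec hex
  have hR1 : 1 ≤ Nat.find hex := by
    by_contra h
    have h0 : Nat.find hex = 0 := by omega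
    rw [h0] at hR
    norm_num at hR
    omega
  refine ⟨Nat.find hex, hR1, hR, ?_⟩
  have h2 := Nat.find_min hex (m := Nat.find hex - 1) (by omega)
  rw [Nat.sub_add_cancel hR1] at h2
  omega

open Classical in
/-- part QUA -/
theorem qua_ (h1 : S_PLN) (h2 : S_SUMD) (h3 : S_TAN) (h4 : S_SIE) : S_QUA := by
  intro q hq hsq ε hε
  have hdet : q.det ≠ 0 := by
    intro h
    apply hsq
    rw [h]
    exact ⟨0, by simp⟩
  obtain ⟨C3, hC3, hsum⟩ := h2 q hq hdet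
  obtain ⟨C1, hC1, hdiv⟩ := Pool.Agent.Helper112.divisor_bound (ε / 16) (by positivity)
  set m : ℕ := 1 + ∑ i, ∑ j, (q.adjugate i j).natAbs with hm
  set D : ℝ := max C1 1 * (32 * (m : ℝ)) ^ (ε / 16) with hD
  have hmx : (1 : ℝ) ≤ m := by
    have : 1 ≤ m := Nat.le_add_right _ _
    exact_mod_cast this
  have hmx3 : (1 : ℝ) ≤ 32 * (m : ℝ) := by linarith
  have hD1 : 1 ≤ D := by
    have h1 : (1 : ℝ) ≤ (32 * (m : ℝ)) ^ (ε / 16) :=
      Real.one_le_rpow hmx3 (by positivity)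
    have h2 : (1 : ℝ) ≤ max C1 1 := le_max_right _ _
    rw [hD]
    nlinarith
  set L : ℝ := 1 + 4 / ε * (4 : ℝ) ^ (ε / 4) with hL
  have hL0 : 0 ≤ L := by positivity
  refine ⟨D ^ 2 * (14256 + 160 * q.det.natAbs * C3 * L), by positivity, ?_⟩
  intro X hX
  have hX1 : (1 : ℝ) ≤ X := by exact_mod_cast hX
  obtain ⟨R, hR1, hR, hR3⟩ := Qua_exR X hX
  have hR1' : (1 : ℝ) ≤ R := by exact_mod_cast hR1
  have hR3' : (R : ℝ) ^ 3 ≤ 4 * X := by exact_mod_cast hR3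
  have hRX : (R : ℝ) ≤ 4 * X := (le_self_pow₀ hR1' (by norm_num)).trans hR3'
  set τ : ℝ := D * (X : ℝ) ^ (ε / 8) with hτ
  have hX8 : (1 : ℝ) ≤ (X : ℝ) ^ (ε / 8) := Real.one_le_rpow hX1 (by positivity)
  have hτ1 : 1 ≤ τ := by
    rw [hτ]
    nlinarith
  have hτd : ∀ a : Fin 4 → ℤ, ht a ≤ R → q4 q.adjugate a ≠ 0 →
      ((Nat.divisors (2 * (q4 q.adjugate a).natAbs)).card : ℝ) ≤ τ := by
    intro a ha hD0
    have hpos : 1 ≤ (q4 q.adjugate a).natAbs :=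
      Nat.one_le_iff_ne_zero.2 (Int.natAbs_ne_zero.2 hD0)
    refine (hdiv _ (by omega)).trans ?_
    have h4 := Qua_q4_le q.adjugate ha
    have h5 : ((2 * (q4 q.adjugate a).natAbs : ℕ) : ℝ) ≤ 32 * (m : ℝ) * (X : ℝ) ^ 2 := by
      have h6 : ((2 * (q4 q.adjugate a).natAbs : ℕ) : ℝ) ≤ 2 * ((m : ℝ) * (R : ℝ) ^ 2) := by
        have h7 : 2 * (q4 q.adjugate a).natAbs ≤ 2 * (m * R ^ 2) := by
          refine Nat.mul_le_mul_left _ (h4.trans (Nat.mul_le_mul_right _ ?_))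
          exact Nat.le_add_left _ _
        exact_mod_cast h7
      have h8 : (R : ℝ) ^ 2 ≤ 16 * (X : ℝ) ^ 2 := by
        calc (R : ℝ) ^ 2 ≤ (4 * (X : ℝ)) ^ 2 := by gcongr
          _ = _ := by ring
      calc _ ≤ 2 * ((m : ℝ) * (R : ℝ) ^ 2) := h6
        _ ≤ 2 * ((m : ℝ) * (16 * (X : ℝ) ^ 2)) := by gcongr
        _ = _ := by ring
    calc C1 * ((2 * (q4 q.adjugate a).natAbs : ℕ) : ℝ) ^ (ε / 16)
        ≤ max C1 1 * (32 * (m : ℝ) * (X : ℝ) ^ 2) ^ (ε / 16) := by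
          have h7 : ((2 * (q4 q.adjugate a).natAbs : ℕ) : ℝ) ^ (ε / 16) ≤
              (32 * (m : ℝ) * (X : ℝ) ^ 2) ^ (ε / 16) :=
            Real.rpow_le_rpow (Nat.cast_nonneg _) h5 (by positivity)
          exact mul_le_mul (le_max_left _ _) h7 (by positivity) (by positivity)
      _ = τ := by
          rw [Real.mul_rpow (by positivity) (by positivity), ← Real.rpow_natCast (X : ℝ) 2,
            ← Real.rpow_mul (by positivity), hτ, hD, mul_assoc]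
          congr 3
          push_cast
          ring
  -- the planes
  set T := (bx 4 R).filter fun a => Rep a with hTd
  set S : (Fin 4 → ℤ) → Finset (Fin 4 → ℤ) := fun a =>
    (bx 4 X).filter fun x => Rep x ∧ q4 q x = 0 ∧ a ⬝ᵥ x = 0 with hSd
  have hsub : ((bx 4 X).filter fun x => Rep x ∧ q4 q x = 0) ⊆ T.biUnion S := by
    intro x hx
    rw [mem_filter] at hx
    obtain ⟨a, ha1, ha2, ha3⟩ := h4 X R x hX (mem_bx.1 hx.1) hR hR1
    rw [mem_biUnion]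
    refine ⟨a, ?_, ?_⟩
    · rw [hTd, mem_filter, mem_bx]
      exact ⟨ha2, ha1⟩
    · rw [hSd]
      simp only [mem_filter]
      exact ⟨hx.1, hx.2.1, hx.2.2, ha3⟩
  have hone : ∀ a ∈ T, (((S a).card : ℕ) : ℝ) ≤
      τ ^ 2 * (11 + 40 * q.det.natAbs * X *
        (1 / (((ht a : ℝ) * ((q4 q.adjugate a).natAbs : ℝ)) ^ ((1 : ℝ) / 3)))) := by
    intro a ha
    rw [hTd, mem_filter, mem_bx] at ha
    obtain ⟨e1, e2⟩ := ha
    have h8 : 1 ≤ τ ^ 2 := one_le_pow₀ hτ1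
    by_cases e3 : q4 q.adjugate a = 0
    · have e4 : (S a).card ≤ 1 := by
        rw [Finset.card_le_one]
        intro x hx y hy
        rw [hSd] at hx hy
        simp only [mem_filter] at hx hy
        have ha0 : a ≠ 0 := by
          rintro rfl
          obtain ⟨i, hi, -⟩ := e2.2
          simp at hi
        exact h3 q hq hsq a ha0 e3 x y hx.2.1 hy.2.1 hx.2.2.1 hy.2.2.1 hx.2.2.2 hy.2.2.2
      have e5 : (((S a).card : ℕ) : ℝ) ≤ 1 := by exact_mod_cast e4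
      have e6 : (0 : ℝ) ≤ 40 * q.det.natAbs * X *
        (1 / (((ht a : ℝ) * ((q4 q.adjugate a).natAbs : ℝ)) ^ ((1 : ℝ) / 3))) := by positivity
      nlinarith
    · have h5 := h1 q hq hdet a e2 e3 X (S a) hX (fun x hx => by
        rw [hSd] at hx
        simp only [mem_filter] at hx
        exact ⟨hx.2.1, mem_bx.1 hx.1, hx.2.2.1, hx.2.2.2⟩)
      refine h5.trans ?_
      have h6 := hτd a e1 e3
      have h7 : ((Nat.divisors (2 * (q4 q.adjugate a).natAbs)).card : ℝ) ^ 2 ≤ τ ^ 2 := by gcongr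
      have h9 := mul_le_mul_of_nonneg_right h7
            (by positivity : (0 : ℝ) ≤ 10 + 40 * (q.det.natAbs * X) /
              (((ht a : ℝ) * ((q4 q.adjugate a).natAbs : ℝ)) ^ ((1 : ℝ) / 3)))
      calc (1 : ℝ) + ((Nat.divisors (2 * (q4 q.adjugate a).natAbs)).card : ℝ) ^ 2 *
            (10 + 40 * (q.det.natAbs * X) /
              (((ht a : ℝ) * ((q4 q.adjugate a).natAbs : ℝ)) ^ ((1 : ℝ) / 3)))
          ≤ τ ^ 2 * 1 + τ ^ 2 * (10 + 40 * (q.det.natAbs * X) /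
              (((ht a : ℝ) * ((q4 q.adjugate a).natAbs : ℝ)) ^ ((1 : ℝ) / 3))) := by
            linarith
        _ = _ := by ring
  have hTc : (T.card : ℝ) ≤ 1296 * (X : ℝ) ^ 2 := by
    have h4 := card_bx_le 4 hR1
    have h5 : (T.card : ℝ) ≤ ((bx 4 R).card : ℝ) := by
      exact_mod_cast Finset.card_le_card (Finset.filter_subset _ _)
    have h6 : (R : ℝ) ^ 4 ≤ ((R : ℝ) ^ 3) ^ 2 := by
      rw [← pow_mul]
      exact pow_le_pow_right₀ hR1' (by norm_num)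
    have h7 : ((R : ℝ) ^ 3) ^ 2 ≤ (4 * (X : ℝ)) ^ 2 := by gcongr
    calc (T.card : ℝ) ≤ (3 * (R : ℝ)) ^ 4 := h5.trans h4
      _ = 81 * (R : ℝ) ^ 4 := by ring
      _ ≤ 81 * (4 * (X : ℝ)) ^ 2 := by linarith
      _ = 1296 * (X : ℝ) ^ 2 := by ring
  have hTs : ∑ a ∈ T, (1 / (((ht a : ℝ) * ((q4 q.adjugate a).natAbs : ℝ)) ^ ((1 : ℝ) / 3))) ≤
      C3 * (R : ℝ) ^ 3 * (1 + Real.log R) := by
    refine le_trans ?_ (hsum R hR1)
    have e1 : ∑ a ∈ T, (1 / (((ht a : ℝ) * ((q4 q.adjugate a).natAbs : ℝ)) ^ ((1 : ℝ) / 3))) =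
        ∑ a ∈ T.filter (fun a => q4 q.adjugate a ≠ 0),
          (1 / (((ht a : ℝ) * ((q4 q.adjugate a).natAbs : ℝ)) ^ ((1 : ℝ) / 3))) := by
      symm
      refine Finset.sum_filter_of_ne ?_
      intro a _ h0 h
      apply h0
      rw [h]
      simp
    rw [e1]
    refine Finset.sum_le_sum_of_subset_of_nonneg ?_ fun t _ _ => by positivity
    intro t ht'
    rw [mem_filter, hTd, mem_filter] at ht'
    rw [mem_filter]
    exact ⟨ht'.1.1, ht'.2⟩
  have hlog : 1 + Real.log R ≤ L * (X : ℝ) ^ (ε / 4) := by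
    have h3 : Real.log R ≤ Real.log (4 * X) := Real.log_le_log (by linarith) hRX
    have h4 : Real.log (4 * X) ≤ (4 * (X : ℝ)) ^ (ε / 4) / (ε / 4) :=
      Real.log_le_rpow_div (by positivity) (by positivity)
    have h5 : (1 : ℝ) ≤ (X : ℝ) ^ (ε / 4) := Real.one_le_rpow hX1 (by positivity)
    have h6 : (4 * (X : ℝ)) ^ (ε / 4) / (ε / 4) = 4 / ε * (4 : ℝ) ^ (ε / 4) * (X : ℝ) ^ (ε / 4) := by
      rw [Real.mul_rpow (by norm_num) (by positivity)]
      field_simp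
    rw [h6] at h4
    rw [hL]
    linarith
  have hX4 : (1 : ℝ) ≤ (X : ℝ) ^ (ε / 4) := Real.one_le_rpow hX1 (by positivity)
  have hτsq : τ ^ 2 = D ^ 2 * (X : ℝ) ^ (ε / 4) := by
    rw [hτ, mul_pow, ← Real.rpow_natCast ((X : ℝ) ^ (ε / 8)) 2, ← Real.rpow_mul (by positivity)]
    congr 2
    push_cast
    ring
  have hlog0 : 0 ≤ 1 + Real.log R := by
    have := Real.log_nonneg hR1'
    linarith
  calc (((bx 4 X).filter fun x => Rep x ∧ q4 q x = 0).card : ℝ)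
      ≤ ((T.biUnion S).card : ℝ) := by exact_mod_cast Finset.card_le_card hsub
    _ ≤ ∑ a ∈ T, (((S a).card : ℕ) : ℝ) := by
        exact_mod_cast Finset.card_biUnion_le
    _ ≤ ∑ a ∈ T, τ ^ 2 * (11 + 40 * q.det.natAbs * X *
        (1 / (((ht a : ℝ) * ((q4 q.adjugate a).natAbs : ℝ)) ^ ((1 : ℝ) / 3)))) :=
        Finset.sum_le_sum hone
    _ = τ ^ 2 * (11 * T.card + 40 * q.det.natAbs * X *
          ∑ a ∈ T, (1 / (((ht a : ℝ) * ((q4 q.adjugate a).natAbs : ℝ)) ^ ((1 : ℝ) / 3)))) := by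
        rw [← Finset.mul_sum, Finset.sum_add_distrib, Finset.sum_const, ← Finset.mul_sum,
          nsmul_eq_mul]
        ring
    _ ≤ τ ^ 2 * (11 * (1296 * (X : ℝ) ^ 2) + 40 * q.det.natAbs * X *
          (C3 * (4 * X) * (L * (X : ℝ) ^ (ε / 4)))) := by
        have e1 : ∑ a ∈ T, (1 / (((ht a : ℝ) * ((q4 q.adjugate a).natAbs : ℝ)) ^ ((1 : ℝ) / 3))) ≤
            C3 * (4 * X) * (L * (X : ℝ) ^ (ε / 4)) := by
          refine hTs.trans ?_
          refine mul_le_mul ?_ hlog hlog0 (by positivity)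
          exact mul_le_mul_of_nonneg_left hR3' hC3
        gcongr
    _ ≤ τ ^ 2 * (14256 * (X : ℝ) ^ 2 * (X : ℝ) ^ (ε / 4) + 40 * q.det.natAbs * X *
          (C3 * (4 * X) * (L * (X : ℝ) ^ (ε / 4)))) := by
        have e1 : 11 * (1296 * (X : ℝ) ^ 2) ≤ 14256 * (X : ℝ) ^ 2 * (X : ℝ) ^ (ε / 4) := by
          have e3 : 14256 * (X : ℝ) ^ 2 ≤ 14256 * (X : ℝ) ^ 2 * (X : ℝ) ^ (ε / 4) :=
            le_mul_of_one_le_right (by positivity) hX4
          linarith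
        gcongr
    _ = D ^ 2 * (14256 + 160 * q.det.natAbs * C3 * L) * ((X : ℝ) ^ 2 *
          ((X : ℝ) ^ (ε / 4) * (X : ℝ) ^ (ε / 4))) := by
        rw [hτsq]
        ring
    _ ≤ D ^ 2 * (14256 + 160 * q.det.natAbs * C3 * L) * (X : ℝ) ^ (2 + ε) := by
        have e1 : (X : ℝ) ^ 2 * ((X : ℝ) ^ (ε / 4) * (X : ℝ) ^ (ε / 4)) ≤ (X : ℝ) ^ (2 + ε) := by
          rw [← Real.rpow_natCast (X : ℝ) 2, ← Real.rpow_add (by positivity),
            ← Real.rpow_add (by positivity)]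
          refine Real.rpow_le_rpow_of_exponent_le hX1 ?_
          push_cast
          linarith
        exact mul_le_mul_of_nonneg_left e1 (by positivity)

end Pool.Agent.R38.QP
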