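import Pool.Agent.R38.QP.Stm
import Pool.Agent.H548.WM.Hyp

/-! Part SIE: planes of small height through a point. -/

set_option autoImplicit false

namespace Pool.Agent.R38.QP

open Matrix Finset
open Pool.Agent.H548.WM (ht bx Rep)

namespace SieAux

theorem rep_of_ne {v : Fin 4 → ℤ} (hv : v ≠ 0) (x : Fin 4 → ℤ) (R : ℕ) (hR : ∀ i, |v i| ≤ (R : ℤ))
    (h0 : v ⬝ᵥ x = 0) : ∃ a : Fin 4 → ℤ, Rep a ∧ ht a ≤ R ∧ a ⬝ᵥ x = 0 := by
  obtain ⟨w, hw, hw1⟩ := Finset.extract_gcd (s := (Finset.univ : Finset (Fin 4))) v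
    Finset.univ_nonempty
  have hw' : ∀ b, v b = Finset.univ.gcd v * w b := fun b => hw b (Finset.mem_univ b)
  have hg : Finset.univ.gcd v ≠ 0 := by
    intro h
    apply hv
    funext b
    rw [hw' b, h, zero_mul]
    rfl
  have hne : ∃ i, w i ≠ 0 := by
    by_contra hcon
    push Not at hcon
    apply hv
    funext b
    rw [hw' b, hcon b, mul_zero]
    rfl
  obtain ⟨i, hi, hmin⟩ : ∃ i, w i ≠ 0 ∧ ∀ j < i, w j = 0 := by
    have h1 : (Finset.univ.filter fun i => w i ≠ 0).Nonempty := by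
      obtain ⟨i, hi⟩ := hne
      exact ⟨i, by simpa using hi⟩
    refine ⟨(Finset.univ.filter fun i => w i ≠ 0).min' h1, ?_, ?_⟩
    · have h2 := Finset.min'_mem _ h1
      simpa using h2
    · intro j hj
      by_contra hcon
      have h2 := Finset.min'_le (Finset.univ.filter fun i => w i ≠ 0) j (by simpa using hcon)
      exact absurd hj (not_lt.2 h2)
  have hs : Int.sign (w i) * w i = |w i| := Int.sign_mul_self_eq_abs (w i)
  have hs1 : |Int.sign (w i)| = 1 := Int.abs_sign_of_ne_zero hi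
  refine ⟨fun j => Int.sign (w i) * w j, ⟨?_, i, ?_, ?_⟩, ?_, ?_⟩
  · rw [Finset.gcd_mul_left, hw1, mul_one, ← Int.abs_eq_normalize, hs1]
  · show 0 < Int.sign (w i) * w i
    rw [hs]
    exact abs_pos.2 hi
  · intro j hj
    show Int.sign (w i) * w j = 0
    rw [hmin j hj, mul_zero]
  · apply Pool.Agent.H548.WM.ht_le
    intro j
    show |Int.sign (w i) * w j| ≤ (R : ℤ)
    rw [abs_mul, hs1, one_mul]
    refine le_trans ?_ (hR j)
    rw [hw' j, abs_mul]
    have h1 : 1 ≤ |Finset.univ.gcd v| := Int.one_le_abs hg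
    nlinarith [abs_nonneg (w j)]
  · have h1 : Finset.univ.gcd v * (w ⬝ᵥ x) = 0 := by
      rw [← h0]
      simp only [dotProduct, Finset.mul_sum]
      refine Finset.sum_congr rfl fun b _ => ?_
      rw [hw' b]
      ring
    have h2 : w ⬝ᵥ x = 0 := (mul_eq_zero.1 h1).resolve_left hg
    have h3 : (fun j => Int.sign (w i) * w j) ⬝ᵥ x = Int.sign (w i) * (w ⬝ᵥ x) := by
      simp only [dotProduct, Finset.mul_sum]
      refine Finset.sum_congr rfl fun b _ => ?_
      ring
    rw [h3, h2, mul_zero]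

end SieAux

open SieAux in
theorem sie_ : S_SIE := by
  classical
  intro X R x hX hx hR hR1
  have hxi : ∀ i, |x i| ≤ (X : ℤ) := fun i =>
    (Pool.Agent.H548.WM.le_ht' x i).trans (by exact_mod_cast hx)
  set s : Finset (Fin 4 → ℤ) := Fintype.piFinset fun _ => Finset.Icc (0 : ℤ) R with hs
  set lo : ℤ := ∑ i, (R : ℤ) * min (x i) 0 with hlo
  set hi : ℤ := ∑ i, (R : ℤ) * max (x i) 0 with hhi
  have hmaps : ∀ b ∈ s, b ⬝ᵥ x ∈ Finset.Icc lo hi := by
    intro b hb
    rw [hs, Fintype.mem_piFinset] at hb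
    rw [Finset.mem_Icc]
    constructor
    · refine Finset.sum_le_sum fun i _ => ?_
      have h1 := Finset.mem_Icc.1 (hb i)
      have h2 : min (x i) 0 ≤ x i := min_le_left _ _
      have h3 : min (x i) 0 ≤ 0 := min_le_right _ _
      nlinarith [h1.1, h1.2]
    · refine Finset.sum_le_sum fun i _ => ?_
      have h1 := Finset.mem_Icc.1 (hb i)
      have h2 : x i ≤ max (x i) 0 := le_max_left _ _
      have h3 : 0 ≤ max (x i) 0 := le_max_right _ _
      nlinarith [h1.1, h1.2]
  have hdiff : hi - lo ≤ 4 * R * X := by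
    have h1 : hi - lo = ∑ i, (R : ℤ) * |x i| := by
      rw [hhi, hlo, ← Finset.sum_sub_distrib]
      refine Finset.sum_congr rfl fun i _ => ?_
      rw [← mul_sub]
      congr 1
      rcases le_total (x i) 0 with h | h
      · rw [max_eq_right h, min_eq_left h, abs_of_nonpos h]; ring
      · rw [max_eq_left h, min_eq_right h, abs_of_nonneg h]; ring
    rw [h1]
    have h2 : ∑ i : Fin 4, (R : ℤ) * |x i| ≤ ∑ _i : Fin 4, (R : ℤ) * X :=
      Finset.sum_le_sum fun i _ => mul_le_mul_of_nonneg_left (hxi i) (by positivity)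
    rw [Finset.sum_const, Finset.card_univ, Fintype.card_fin, nsmul_eq_mul] at h2
    push_cast at h2
    linarith
  have hcs : s.card = (R + 1) ^ 4 := by
    rw [hs, Fintype.card_piFinset]
    simp
  have hct : (Finset.Icc lo hi).card < s.card := by
    rw [hcs, Int.card_Icc]
    have h1 : 4 * R * X + 1 < (R + 1) ^ 4 := by
      have h2 : (R + 1) ^ 4 = (R + 1) ^ 3 * (R + 1) := by ring
      rw [h2]
      have h3 : 4 * X * (R + 1) ≤ (R + 1) ^ 3 * (R + 1) := Nat.mul_le_mul_right _ hR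
      nlinarith
    have h2 : (hi + 1 - lo).toNat ≤ 4 * R * X + 1 := by
      have h3 : hi + 1 - lo ≤ ((4 * R * X + 1 : ℕ) : ℤ) := by
        push_cast
        linarith
      exact Int.toNat_le.2 h3
    exact lt_of_le_of_lt h2 h1
  obtain ⟨b, hb, b', hb', hne, heq⟩ :=
    Finset.exists_ne_map_eq_of_card_lt_of_maps_to hct (f := fun b => b ⬝ᵥ x) hmaps
  rw [hs, Fintype.mem_piFinset] at hb hb'
  refine rep_of_ne (v := b - b') (sub_ne_zero.2 hne) x R ?_ ?_
  · intro i
    have h1 := Finset.mem_Icc.1 (hb i)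
    have h2 := Finset.mem_Icc.1 (hb' i)
    rw [Pi.sub_apply, abs_le]
    constructor <;> linarith [h1.1, h1.2, h2.1, h2.2]
  · rw [sub_dotProduct]
    exact sub_eq_zero.2 heq

end Pool.Agent.R38.QP
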